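import Pool.Agent.N742.FK.Poly
import Pool.Agent.N742.FK.Sz
import Pool.Agent.N742.FK.Line
import Pool.Agent.N742.FK.Dim
import Pool.Agent.N742.FK.Kak
import Pool.Agent.N742.FK.Cov
import Pool.Agent.N742.FK.Dir
import Pool.Agent.N742.FK.Drs
import Pool.Agent.N742.FK.Cnt
import Pool.Agent.N742.FK.Mn1
import Pool.Agent.N742.FK.Mn2

set_option autoImplicit false

/-!
# Covering by one residue class per irreducible polynomial: the question over `F_q[t]`

The question asks whether, for `1/2 < α < 1`, every choice of one residue class modulo each prime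
`p` of size `N^α` covers at least `N^(1 - o(1))` of the integers up to `N`.  In `F_q[t]` the `N = q^n`
polynomials of degree less than `n` play the role of the integers up to `N`, and the monic
irreducible polynomials `P` of degree `r` (there are about `N^α / log N^α` of them, `α = r/n`) the
role of the primes.  `covered F n Ps a` is the set of the polynomials of degree less than `n` which
are congruent to `a P` modulo `P` for some `P ∈ Ps`.

We prove, for EVERY choice `a` and uniformly in `1 ≤ r < n`:
1. for every set `Ps` of monic irreducible polynomials of degree `r`,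
   `|Ps| q^(n-r) ≤ 2^n (2 n^2 / r * log q + 1) |covered|` (the left side is the number of the pairs
   `(P, f)`, `f` in the class of `P`, a trivial upper bound for `|covered|`);
2. for the set of all monic irreducible polynomials of degree `r`, `q ≥ 3`,
   `q^n ≤ 2^n (4 n^2 log q + 2 r) |covered|`;
3. hence `|covered| ≥ N^(1 - ε)` for all `q ≥ q₀(ε)`, all `n` and all `r`: the answer to the question
   over `F_q[t]` is yes, for all exponents `α` at once, up to an exponent which tends to `0` as
   `q → ∞`; for fixed `q` and `n → ∞` the exponent is `1 - log 2 / log q - o(1)`.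

Proof.  The class of `a P` contains a line of `F^n` in the direction of every multiple of `P`, and
a polynomial of degree less than `n` has at most `n / r` irreducible factors of degree `r`; so
`covered` contains a line in each direction of a large set `D`.  By a greedy choice in the
multiplicative group of the field with `q^n` elements, `(q^n / |D|) n log q + 1` translates of `D`
by units cover all directions, so that the union of as many linear images of `covered` is a Kakeya
set, with at least `q^n / 2^n` elements.  The latter is the bound of Dvir, Kopparty, Saraf and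
Sudan (with the constant `2^n`), proved here by the method of multiplicities in an ideal
theoretic form without Hasse derivatives.
-/

namespace Pool.Agent.Results.MP_bb5cc8_nt.FunctionFieldAnalogue

open Polynomial

/-- the monic irreducible polynomials of degree `r` over `F` -/
def irr (F : Type) [Field F] (r : ℕ) : Set F[X] := {P | P.Monic ∧ Irreducible P ∧ P.natDegree = r}

/-- The polynomials of degree less than `n` which lie in one of the chosen residue classes:
`f ≡ a P (mod P)` for some `P ∈ Ps`. -/
def covered (F : Type) [Field F] (n : ℕ) (Ps : Set F[X]) (a : F[X] → F[X]) : Set F[X] :=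
  {f | f.degree < n ∧ ∃ P ∈ Ps, P ∣ f - a P}

/-- **The function field analogue.**  For every finite field `F` with `q` elements, all
`1 ≤ r < n`, and every choice `a` of residue classes:
(1) `|Ps| q^(n-r) ≤ 2^n (2 n^2/r * log q + 1) |covered|` for every set `Ps` of monic irreducible
polynomials of degree `r`;
(2) `q^n ≤ 2^n (4 n^2 log q + 2 r) |covered|` if `Ps` is the set of all of them and `q ≥ 3`;
(3) for every `ε > 0` there is `q₀` such that `|covered| ≥ (q^n)^(1 - ε)` for all `q ≥ q₀`, uniformly in
`r` and `n`, if `Ps` is the set of all of them. -/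
theorem result :
    (∀ (F : Type) [Field F] [Fintype F] (r n : ℕ) (Ps : Set F[X]) (a : F[X] → F[X]),
      1 ≤ r → r < n → Ps ⊆ irr F r →
      (Ps.ncard : ℝ) * (Fintype.card F : ℝ) ^ (n - r) ≤
        2 ^ n * (2 * (n : ℝ) ^ 2 / r * Real.log (Fintype.card F) + 1) *
          (covered F n Ps a).ncard) ∧
    (∀ (F : Type) [Field F] [Fintype F] (r n : ℕ) (a : F[X] → F[X]),
      1 ≤ r → r < n → 3 ≤ Fintype.card F →
      (Fintype.card F : ℝ) ^ n ≤
        2 ^ n * (4 * (n : ℝ) ^ 2 * Real.log (Fintype.card F) + 2 * r) *
          (covered F n (irr F r) a).ncard) ∧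
    (∀ ε : ℝ, 0 < ε → ∃ q₀ : ℕ, ∀ (F : Type) [Field F] [Fintype F], q₀ ≤ Fintype.card F →
      ∀ (r n : ℕ) (a : F[X] → F[X]), 1 ≤ r → r < n →
      (Fintype.card F : ℝ) ^ ((n : ℝ) * (1 - ε)) ≤ (covered F n (irr F r) a).ncard) := by
  have hsz : Pool.Agent.N742.FK.SZ := Pool.Agent.N742.FK.sz Pool.Agent.N742.FK.poly
  have hline : Pool.Agent.N742.FK.LINE := Pool.Agent.N742.FK.line Pool.Agent.N742.FK.poly
  have hkak : Pool.Agent.N742.FK.KAK := Pool.Agent.N742.FK.kak hsz hline Pool.Agent.N742.FK.dim
  have hdir : Pool.Agent.N742.FK.DIR := Pool.Agent.N742.FK.dir hkak Pool.Agent.N742.FK.cov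
  have h1 : Pool.Agent.N742.FK.MN1 := Pool.Agent.N742.FK.mn1 hdir Pool.Agent.N742.FK.drs
  have h2 : Pool.Agent.N742.FK.MN2 := Pool.Agent.N742.FK.mn2 h1 Pool.Agent.N742.FK.cnt
  have h3 : Pool.Agent.N742.FK.MN3 := Pool.Agent.N742.FK.mn3 h2
  exact ⟨h1, h2, h3⟩

end Pool.Agent.Results.MP_bb5cc8_nt.FunctionFieldAnalogue
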